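import Pool.Agent.H2.SylInt2

namespace Pool.Agent.Results.MP_e3cc28_al.TwoNilpotent

open Pool.Agent.H2.SylInt

theorem result :
    (∀ (G : Type) [Group G] [Finite G] (N : Subgroup G), N.Normal → Odd (Nat.card N) →
      (∃ k, N.index = 2 ^ k) →
      (PropStar G ↔ ∀ P : Sylow 2 G, ∀ n ∈ N,
        ((Subgroup.centralizer {n}).subgroupOf (P : Subgroup G)).Normal)) ∧
    (∃ (G : Type) (_ : Group G) (_ : Finite G), Nat.card G = 72 ∧
      (∃ N : Subgroup G, N.Normal ∧ Nat.card N = 9) ∧ ¬ PropStar G) :=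
  ⟨fun _ _ _ _ hN ho hk => main' hN ho hk,
    ⟨W, inferInstance, inferInstance, W.card_W, ⟨W.N, W.N_normal, W.card_N⟩, W.not_star⟩⟩

end Pool.Agent.Results.MP_e3cc28_al.TwoNilpotent
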